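import Mathlib
import Pool.Agent.Q186.FL.Final

/-!
# Weakly taming forms with values in a flat line bundle on simply connected manifolds

`X` is a simply connected closed `d`-manifold with a continuous almost complex structure `J`.  The
structure `J` is tamed by a symplectic form if and only if, off a closed set `K` of codimension
more than one, there is a closed two-form with values in a flat real line bundle (locally: a closed
two-form up to locally constant positive factors, as for locally conformally symplectic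
structures) which is nonnegative on the complex lines, may be unbounded at the points of `K`, and
is degenerate only along sets with small components.
-/

set_option autoImplicit false

open Set MeasureTheory Filter Topology
open scoped Manifold ContDiff

namespace Pool.Agent.Results.MP_2a78db_gt.FlatTaming

open Pool.Agent.Y501.SYP Pool.Agent.Q186.FLP

theorem result (d : ℕ) (hd : 3 ≤ d) (X : Type) [TopologicalSpace X] [ChartedSpace (ES d) X]
    [IsManifold 𝓘(ℝ, ES d) ∞ X] [CompactSpace X] [T2Space X] [SimplyConnectedSpace X]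
    (J : End (ES d) X) (hJ : IsAlmostComplex J) :
    ((∃ w : Form (ES d) X 2, IsTamingSymplectic w J) ↔
      ∃ K : Set X, IsClosed K ∧ (∀ x₀ : X,
        μH[(d : ℝ) - 1] (chartAt (ES d) x₀ '' (K ∩ (chartAt (ES d) x₀).source)) = 0) ∧
        ∃ (ι : Type) (S : TwistedForm (ES d) K ι), S.WeaklyTames J) ∧
    ∀ K : Set X, IsClosed K → (∀ x₀ : X,
        μH[(d : ℝ) - 1] (chartAt (ES d) x₀ '' (K ∩ (chartAt (ES d) x₀).source)) = 0) →
      ∀ (ι : Type) (S : TwistedForm (ES d) K ι), S.WeaklyTames J →
        ∃ g : ι → X → ℝ, (∀ i, ∀ x ∈ S.U i, 0 < g i x ∧ ∀ᶠ y in 𝓝 x, g i y = g i x) ∧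
          (∀ i j, ∀ x ∈ S.U i ∩ S.U j, g i x * S.c i j x = g j x) ∧
          ∀ O : Set X, IsOpen O → K ⊆ O →
            ∃ (α : Form (ES d) X 1) (η w : Form (ES d) X 2), IsSmooth α ∧ IsSmooth η ∧
              IsD α η ∧ IsTamingSymplectic w J ∧
              ∀ i, ∀ x ∈ S.U i, x ∉ O → w x = g i x • S.σ i x + η x := by
  refine ⟨⟨?_, ?_⟩, ?_⟩
  · rintro ⟨w, hw⟩
    obtain ⟨S, hS⟩ := weak_of hJ hw
    exact ⟨∅, isClosed_empty, fun x₀ => by simp, Unit, S, hS⟩
  · rintro ⟨K, hK, hH, ι, S, hS⟩
    obtain ⟨g, -, -, h⟩ := flat hd J hJ K hK hH S hS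
    obtain ⟨-, -, w, -, -, -, hw, -⟩ := h univ isOpen_univ (subset_univ K)
    exact ⟨w, hw⟩
  · intro K hK hH ι S hS
    exact flat hd J hJ K hK hH S hS

end Pool.Agent.Results.MP_2a78db_gt.FlatTaming
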