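import Pool.Agent.Q130.SF.Crit
import Pool.Agent.Q130.SF.Cls
import Pool.Agent.Q130.SF.PgT

/-!
# MP_2a78db_gt, Q1: closed two-forms with nonnegative top power

Q1 asks for closed simply connected almost complex manifolds without symplectic structure, although
some class has a nonzero top power.  The theorem gives symplectic structures from closed two-forms
with small degeneracies.

Let `X` be a closed manifold of dimension `2n`, oriented by the top power of a two-form `Ω` (for
instance, a nondegenerate form defined by an almost complex structure).  Let `σ` be a closed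
two-form such that `σ^n ≥ 0`, `σ^(n-1)` vanishes nowhere, and every connected component of the set
`K` of the points at which `σ` is degenerate has two-dimensional Hausdorff measure zero.  Then for
every neighbourhood `W` of `K` there is an exact form `dα`, `α` supported in `W`, such that for all
small `ε > 0` the form `σ + ε dα` is symplectic.
-/

set_option autoImplicit false

open Set MeasureTheory Topology
open scoped Manifold ContDiff

noncomputable section

namespace Pool.Agent.Results.MP_2a78db_gt.NonnegativePowers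

open Pool.Agent.Y501.SYP

section defs

variable {n : ℕ} {X : Type} [TopologicalSpace X] [ChartedSpace (ES (n * 2)) X]

/-- the points at which `σ` is degenerate -/
def Degenerate (σ : Form (ES (n * 2)) X 2) : Set X :=
  {x | ∃ v : TangentSpace 𝓘(ℝ, ES (n * 2)) x, v ≠ 0 ∧ ∀ w, σ x ![v, w] = 0}

/-- the number `σ(v_(i,0), v_(i,1))` -/
def pair (σ : Form (ES (n * 2)) X 2) (x : X)
    (v : Fin n × Fin 2 → TangentSpace 𝓘(ℝ, ES (n * 2)) x) (i : Fin n) : ℝ :=
  σ x ![v (i, 0), v (i, 1)]

/-- the sign of a permutation of the `2n` indices -/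
def sgn (π : Equiv.Perm (Fin n × Fin 2)) : ℝ := ((Equiv.Perm.sign π : ℤ) : ℝ)

/-- the value of the top power `σ^n` on `2n` tangent vectors, times the factor `2^n` -/
def power (σ : Form (ES (n * 2)) X 2) (x : X)
    (v : Fin n × Fin 2 → TangentSpace 𝓘(ℝ, ES (n * 2)) x) : ℝ :=
  ∑ π : Equiv.Perm (Fin n × Fin 2), sgn π * ∏ i, pair σ x (fun k => v (π k)) i

/-- the value of `σ^(n-1) ∧ B` on `2n` tangent vectors, times the factor `2^n n` -/
def powerWedge (σ : Form (ES (n * 2)) X 2) (x : X)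
    (B : (TangentSpace 𝓘(ℝ, ES (n * 2)) x) [⋀^Fin 2]→L[ℝ] ℝ)
    (v : Fin n × Fin 2 → TangentSpace 𝓘(ℝ, ES (n * 2)) x) : ℝ :=
  ∑ π : Equiv.Perm (Fin n × Fin 2), sgn π *
    ∑ i, (∏ j ∈ Finset.univ.erase i, pair σ x (fun k => v (π k)) j) * B ![v (π (i, 0)), v (π (i, 1))]

/-- `Ω` is smooth and its top power vanishes nowhere -/
def IsOrientation (Ω : Form (ES (n * 2)) X 2) : Prop :=
  IsSmooth Ω ∧ ∀ x, ∃ v, power Ω x v ≠ 0

/-- `σ^n ≥ 0` for the orientation by `Ω^n` -/
def NonnegPower (Ω σ : Form (ES (n * 2)) X 2) : Prop :=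
  ∀ (x : X) (v : Fin n × Fin 2 → TangentSpace 𝓘(ℝ, ES (n * 2)) x), 0 ≤ power Ω x v * power σ x v

/-- `σ^(n-1)` vanishes at no point: at every point `σ^(n-1) ∧ B ≠ 0` for some two-form `B` -/
def LowerPowerNonzero (σ : Form (ES (n * 2)) X 2) : Prop :=
  ∀ x, ∃ B v, powerWedge σ x B v ≠ 0

/-- the two-dimensional Hausdorff measure of `C` is zero in the charts -/
def HausdorffNull (C : Set X) : Prop :=
  ∀ x : X, μH[2] (chartAt (ES (n * 2)) x '' (C ∩ (chartAt (ES (n * 2)) x).source)) = 0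

/-- `σ^n ≥ 0`, `σ^(n-1)` vanishes nowhere, and the components of the set of degenerate points are of
two-dimensional Hausdorff measure zero -/
structure WeaklySymplectic (Ω σ : Form (ES (n * 2)) X 2) : Prop where
  nonneg : NonnegPower Ω σ
  lower : LowerPowerNonzero σ
  small : ∀ z ∈ Degenerate σ, HausdorffNull (n := n) (connectedComponentIn (Degenerate σ) z)

end defs

/-- `η = dα` for smooth `α`, `η` which vanish off `W` -/
def ExactIn {d : ℕ} {X : Type} [TopologicalSpace X] [ChartedSpace (ES d) X]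
    (W : Set X) (α : Form (ES d) X 1) (η : Form (ES d) X 2) : Prop :=
  IsSmooth α ∧ IsSmooth η ∧ IsD α η ∧ ∀ x, x ∉ W → α x = 0 ∧ η x = 0

/-- symplectic forms -/
def Symplectic {d : ℕ} {X : Type} [TopologicalSpace X] [ChartedSpace (ES d) X]
    (w : Form (ES d) X 2) : Prop :=
  IsSmooth w ∧ IsClosedForm w ∧ NondegForm w

attribute [local instance] cs mf

/-- A closed form with nonnegative top power, whose lower power vanishes nowhere and whose degenerate
points form a set with components of two-dimensional Hausdorff measure zero, is a limit of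
symplectic forms in its class, which are equal to it off any given neighbourhood of this set. -/
theorem result (n : ℕ) (X : Type) [TopologicalSpace X] [ChartedSpace (ES (n * 2)) X]
    [IsManifold 𝓘(ℝ, ES (n * 2)) ∞ X] [CompactSpace X] [T2Space X]
    (Ω σ : Form (ES (n * 2)) X 2) (hΩ : IsOrientation Ω) (hσ : IsSmooth σ) (hσc : IsClosedForm σ)
    (hw : WeaklySymplectic Ω σ) (W : Set X) (hW : IsOpen W) (hKW : Degenerate σ ⊆ W) :
    ∃ (α : Form (ES (n * 2)) X 1) (η : Form (ES (n * 2)) X 2), ExactIn W α η ∧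
      ∃ ε₀ : ℝ, 0 < ε₀ ∧ ∀ ε : ℝ, 0 < ε → ε ≤ ε₀ → Symplectic (comb σ ε η) := by
  classical
  have hDeg : Degenerate σ = {x | ¬ Pool.Agent.Q130.SF.nd (d := n * 2) (X := X) σ x} := by
    ext x
    constructor
    · rintro ⟨v, hv, h⟩ h1
      exact hv (h1 v h)
    · intro h
      by_contra h1
      apply h
      intro v hv
      by_contra h2
      exact h1 ⟨v, h2, hv⟩
  have hmem : ∀ x, ¬ Pool.Agent.Q130.SF.nd (d := n * 2) (X := X) σ x → x ∈ Degenerate σ := by
    intro x hx
    rw [hDeg]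
    exact hx
  have key : ∃ θ : Form (ES (n * 2)) X 2,
      ∃ (α : Form (ES (n * 2)) X 1) (η : Form (ES (n * 2)) X 2), IsSmooth α ∧ IsSmooth η ∧
      IsD α η ∧ IsClosedForm η ∧ (∀ x, x ∉ W → α x = 0 ∧ η x = 0) ∧
      ∃ ε₀ : ℝ, 0 < ε₀ ∧ ∀ ε : ℝ, 0 < ε → ε ≤ ε₀ → ∀ s : ℝ, 0 ≤ s → s ≤ 1 →
        ∀ x, Pool.Agent.Q130.SF.nd (d := n * 2) (X := X)
          (Pool.Agent.Q130.SF.mix (d := n * 2) (X := X) σ θ η ε s) x := by
    obtain ⟨θ, -, α', η, b1, b2, b3, b4, b5, b6⟩ := Pool.Agent.Q130.SF.mainG (n := n) (X := X)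
      Pool.Agent.Y484.SY.t_GEN Pool.Agent.Y925.SY.t_PLANAR (Ω := Ω) (σ := σ)
      ((smooth_iff Ω).1 hΩ.1) (fun x => hΩ.2 x) ((smooth_iff σ).1 hσ)
      (fun x => hw.lower x) (fun x v => hw.nonneg x v)
      (fun z hz x => by
        have h1 := hw.small z (hmem z hz)
        rw [hDeg] at h1
        exact h1 x) (W := W) hW (fun x hx => hKW (hmem x hx))
    exact ⟨θ, α', η, (smooth_iff α').2 b1, (smooth_iff η).2 b2, (isD_iff α' η).2 b3,
      (closed_iff η).2 b4, b5, b6⟩
  obtain ⟨θ, α, η, b1, b2, b3, b4, b5, ε₀, hε₀, b6⟩ := key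
  refine ⟨α, η, ⟨b1, b2, b3, b5⟩, ε₀, hε₀, fun ε h0 h1 => ?_⟩
  have hcomb : (comb σ ε η : Form (ES (n * 2)) X 2) = (1 : ℝ) • σ + ε • η := by
    funext x
    show σ x + ε • η x = (1 : ℝ) • σ x + ε • η x
    rw [one_smul]
  refine ⟨?_, ?_, ?_⟩
  · rw [hcomb]
    exact Pool.Agent.Q130.SF.smooth_lin hσ b2 1 ε
  · rw [hcomb]
    exact Pool.Agent.Q130.SF.closed_lin hσ b2 hσc b4 1 ε
  · have h3 : (comb σ ε η : Form (ES (n * 2)) X 2) =
        Pool.Agent.Q130.SF.mix (d := n * 2) (X := X) σ θ η ε 1 := by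
      funext x
      show σ x + ε • η x = σ x + ε • ((1 - (1 : ℝ)) • θ x + (1 : ℝ) • η x)
      rw [sub_self, zero_smul, zero_add, one_smul]
    rw [h3]
    exact fun x v hv => b6 ε h0 h1 1 zero_le_one le_rfl x v hv

end Pool.Agent.Results.MP_2a78db_gt.NonnegativePowers
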