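import Pool.Agent.Q130.SF.Crit
import Pool.Agent.Q130.SF.Ker

/-!
# MP_2a78db_gt, Q1: closed forms with two-dimensional kernels

Q1 asks for closed simply connected almost complex manifolds without symplectic structure, although
some class has a nonzero top power.  The theorem gives symplectic structures from closed two-forms
with small degeneracies.

Let `σ` be a closed two-form on a closed manifold `X` and `θ` a two-form, not necessarily closed,
such that `σ + ε θ` is nondegenerate for all small `ε > 0`.  (In dimension `2n` this implies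
`σ^n ≥ 0` for the orientation given by these forms.)  Suppose that at every point `x` at which `σ`
is degenerate its kernel is a plane on which `θ` does not vanish, and that on every component `C` of
the set `K` of these points `θ` is a finite sum of forms `c da ∧ db` such that `(a, b)` maps the
part of `C` in the support of `c` onto a Lebesgue null set of the plane.  Then for every
neighbourhood `W` of `K` there is an exact form `dα`, `α` supported in `W`, such that for all small
`ε > 0` the form `σ + ε dα` is symplectic, and the segment from `σ + ε θ` to it consists of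
nondegenerate forms.
-/

set_option autoImplicit false

open Set MeasureTheory Topology
open scoped Manifold ContDiff

noncomputable section

namespace Pool.Agent.Results.MP_2a78db_gt.TwoDimensionalKernels

open Pool.Agent.Y501.SYP

/-- the vector `v` belongs to the kernel of `σ` at `x` -/
def InKernel {d : ℕ} {X : Type} [TopologicalSpace X] [ChartedSpace (ES d) X]
    (σ : Form (ES d) X 2) (x : X) (v : TangentSpace 𝓘(ℝ, ES d) x) : Prop :=
  ∀ w, σ x ![v, w] = 0

/-- the points at which `σ` is degenerate -/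
def Degenerate {d : ℕ} {X : Type} [TopologicalSpace X] [ChartedSpace (ES d) X]
    (σ : Form (ES d) X 2) : Set X :=
  {x | ∃ v : TangentSpace 𝓘(ℝ, ES d) x, v ≠ 0 ∧ InKernel σ x v}

/-- `v` is a linear combination of `m` and `n` -/
def Spanned {V : Type} [AddCommGroup V] [Module ℝ V] (m n v : V) : Prop :=
  ∃ s t : ℝ, v = s • m + t • n

/-- the kernel of `σ` at `x` is spanned by two vectors `m`, `n` with `θ(m, n) ≠ 0` -/
def KernelPlane {d : ℕ} {X : Type} [TopologicalSpace X] [ChartedSpace (ES d) X]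
    (σ θ : Form (ES d) X 2) (x : X) : Prop :=
  ∃ m n : TangentSpace 𝓘(ℝ, ES d) x, InKernel σ x m ∧ InKernel σ x n ∧ θ x ![m, n] ≠ 0 ∧
    ∀ v, InKernel σ x v → Spanned m n v

/-- on `C` the form `θ` is a finite sum of forms `c da ∧ db` with smooth functions such that
`(a, b)` maps the part of `C` in the support of `c` onto a Lebesgue null set of the plane -/
def NullSum {d : ℕ} {X : Type} [TopologicalSpace X] [ChartedSpace (ES d) X]
    (θ : Form (ES d) X 2) (C : Set X) : Prop :=
  ∃ (n : ℕ) (c a b : Fin n → X → ℝ), (∀ i, SmoothFun (V := ES d) (c i)) ∧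
    (∀ i, SmoothFun (V := ES d) (a i)) ∧ (∀ i, SmoothFun (V := ES d) (b i)) ∧
    (∀ i, volume ((fun x => (a i x, b i x)) '' (C ∩ tsupport (c i))) = 0) ∧
    ∀ x ∈ C, ∀ v w : TangentSpace 𝓘(ℝ, ES d) x, θ x ![v, w] =
      ∑ i, c i x * (dd (a i) x v * dd (b i) x w - dd (a i) x w * dd (b i) x v)

/-- `η = dα` for smooth `α`, `η` which vanish off `W` -/
def ExactIn {d : ℕ} {X : Type} [TopologicalSpace X] [ChartedSpace (ES d) X]
    (W : Set X) (α : Form (ES d) X 1) (η : Form (ES d) X 2) : Prop :=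
  IsSmooth α ∧ IsSmooth η ∧ IsD α η ∧ ∀ x, x ∉ W → α x = 0 ∧ η x = 0

/-- symplectic forms -/
def Symplectic {d : ℕ} {X : Type} [TopologicalSpace X] [ChartedSpace (ES d) X]
    (w : Form (ES d) X 2) : Prop :=
  IsSmooth w ∧ IsClosedForm w ∧ NondegForm w

/-- the segment from `τ` to `w` consists of nondegenerate forms -/
def SegmentNondeg {d : ℕ} {X : Type} [TopologicalSpace X] [ChartedSpace (ES d) X]
    (τ w : Form (ES d) X 2) : Prop :=
  ∀ s : ℝ, 0 ≤ s → s ≤ 1 → NondegForm (segment τ w s)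

attribute [local instance] cs mf

/-- If the closed form `σ` is a limit of nondegenerate forms `σ + ε θ`, and at the points at which it
is degenerate its kernel is a plane on which `θ` does not vanish, and `θ` is a null sum on the
components of the set of these points, then `X` has a symplectic form in the class of `σ`,
homotopic to `σ + ε θ` through nondegenerate forms. -/
theorem result (d : ℕ) (X : Type) [TopologicalSpace X] [ChartedSpace (ES d) X]
    [IsManifold 𝓘(ℝ, ES d) ∞ X] [CompactSpace X] [T2Space X]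
    (σ θ : Form (ES d) X 2) (hσ : IsSmooth σ) (hσc : IsClosedForm σ) (hθ : IsSmooth θ)
    (hnd : ∃ ε₁ : ℝ, 0 < ε₁ ∧ ∀ ε : ℝ, 0 < ε → ε ≤ ε₁ → NondegForm (comb σ ε θ))
    (hK : ∀ x ∈ Degenerate σ, KernelPlane σ θ x)
    (hN : ∀ z ∈ Degenerate σ, NullSum θ (connectedComponentIn (Degenerate σ) z))
    (W : Set X) (hW : IsOpen W) (hKW : Degenerate σ ⊆ W) :
    ∃ (α : Form (ES d) X 1) (η : Form (ES d) X 2), ExactIn W α η ∧
      ∃ ε₀ : ℝ, 0 < ε₀ ∧ ∀ ε : ℝ, 0 < ε → ε ≤ ε₀ →
        Symplectic (comb σ ε η) ∧ SegmentNondeg (comb σ ε θ) (comb σ ε η) := by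
  classical
  obtain ⟨ε₁, hε₁, hnd⟩ := hnd
  have hDeg : Degenerate σ = {x | ¬ Pool.Agent.Q130.SF.nd (d := d) (X := X) σ x} := by
    ext x
    constructor
    · rintro ⟨v, hv, h⟩ h1
      exact hv (h1 v h)
    · intro h
      by_contra h1
      apply h
      intro v hv
      by_contra h2
      exact h1 ⟨v, h2, hv⟩
  have hmem : ∀ x, ¬ Pool.Agent.Q130.SF.nd (d := d) (X := X) σ x → x ∈ Degenerate σ := by
    intro x hx
    rw [hDeg]
    exact hx
  have key : ∃ (α : Form (ES d) X 1) (η : Form (ES d) X 2), IsSmooth α ∧ IsSmooth η ∧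
      IsD α η ∧ IsClosedForm η ∧ (∀ x, x ∉ W → α x = 0 ∧ η x = 0) ∧
      ∃ ε₀ : ℝ, 0 < ε₀ ∧ ∀ ε : ℝ, 0 < ε → ε ≤ ε₀ → ∀ s : ℝ, 0 ≤ s → s ≤ 1 →
        ∀ x, Pool.Agent.Q130.SF.nd (d := d) (X := X)
          (Pool.Agent.Q130.SF.mix (d := d) (X := X) σ θ η ε s) x := by
    obtain ⟨α', η, b1, b2, b3, b4, b5, b6⟩ := Pool.Agent.Q130.SF.ndThm (d := d) (X := X)
      Pool.Agent.Y484.SY.t_GEN Pool.Agent.Y925.SY.t_PLANAR (σ := σ) (θ := θ)
      ((smooth_iff σ).1 hσ) ((smooth_iff θ).1 hθ)
      (fun x hx => Pool.Agent.Q130.SF.rateAt_of_ker (d := d) (X := X) ((smooth_iff σ).1 hσ)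
        ((smooth_iff θ).1 hθ) (hK x (hmem x hx)) hε₁
        (fun ε h0 h1 y v hv => hnd ε h0 h1 y v hv))
      (fun z hz => by
        have h1 := hN z (hmem z hz)
        rw [hDeg] at h1
        exact h1) (W := W) hW (fun x hx => hKW (hmem x hx))
    exact ⟨α', η, (smooth_iff α').2 b1, (smooth_iff η).2 b2, (isD_iff α' η).2 b3,
      (closed_iff η).2 b4, b5, b6⟩
  obtain ⟨α, η, b1, b2, b3, b4, b5, ε₀, hε₀, b6⟩ := key
  refine ⟨α, η, ⟨b1, b2, b3, b5⟩, ε₀, hε₀, fun ε h0 h1 => ?_⟩
  have hcomb : (comb σ ε η : Form (ES d) X 2) = (1 : ℝ) • σ + ε • η := by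
    funext x
    show σ x + ε • η x = (1 : ℝ) • σ x + ε • η x
    rw [one_smul]
  have hseg : ∀ s : ℝ, (segment (comb σ ε θ) (comb σ ε η) s : Form (ES d) X 2) =
      Pool.Agent.Q130.SF.mix (d := d) (X := X) σ θ η ε s := by
    intro s
    funext x
    show (1 - s) • (σ x + ε • θ x) + s • (σ x + ε • η x) =
      σ x + ε • ((1 - s) • θ x + s • η x)
    rw [smul_add, smul_add, smul_add, smul_smul, smul_smul, smul_smul, smul_smul,
      mul_comm ε (1 - s), mul_comm ε s]
    have h2 : (1 - s) • σ x + s • σ x = σ x := by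
      rw [← add_smul, sub_add_cancel, one_smul]
    calc (1 - s) • σ x + ((1 - s) * ε) • θ x + (s • σ x + (s * ε) • η x) =
        ((1 - s) • σ x + s • σ x) + (((1 - s) * ε) • θ x + (s * ε) • η x) := by abel
      _ = _ := by rw [h2]
  have hnd' : ∀ s : ℝ, 0 ≤ s → s ≤ 1 → NondegForm (segment (comb σ ε θ) (comb σ ε η) s) := by
    intro s h2 h3
    rw [hseg s]
    exact fun x v hv => b6 ε h0 h1 s h2 h3 x v hv
  refine ⟨⟨?_, ?_, ?_⟩, hnd'⟩
  · rw [hcomb]
    exact Pool.Agent.Q130.SF.smooth_lin hσ b2 1 ε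
  · rw [hcomb]
    exact Pool.Agent.Q130.SF.closed_lin hσ b2 hσc b4 1 ε
  · have h2 := hnd' 1 zero_le_one le_rfl
    have h3 : (segment (comb σ ε θ) (comb σ ε η) 1 : Form (ES d) X 2) = comb σ ε η := by
      funext x
      show (1 - (1 : ℝ)) • (comb σ ε θ x) + (1 : ℝ) • (comb σ ε η x) = comb σ ε η x
      rw [sub_self, zero_smul, zero_add, one_smul]
    rw [h3] at h2
    exact h2

end Pool.Agent.Results.MP_2a78db_gt.TwoDimensionalKernels
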